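import Mathlib

set_option autoImplicit false

namespace H407R3.Chev

open Set

/-- a cell `(i, j, k)` of the triangular lattice (in lattice coordinates): `k = false` is the
triangle with corners `(i,j), (i+1,j), (i,j+1)`, and `k = true` the one with corners
`(i+1,j), (i,j+1), (i+1,j+1)` -/
abbrev Cell := ℤ × ℤ × Bool

/-- the closed triangle of a cell -/
def tri (c : Cell) : Set (ℝ × ℝ) :=
  {p | if c.2.2 then p.1 ≤ c.1 + 1 ∧ p.2 ≤ c.2.1 + 1 ∧ (c.1 : ℝ) + c.2.1 + 1 ≤ p.1 + p.2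
    else (c.1 : ℝ) ≤ p.1 ∧ (c.2.1 : ℝ) ≤ p.2 ∧ p.1 + p.2 ≤ c.1 + c.2.1 + 1}

theorem mem_tri_false {i j : ℤ} {p : ℝ × ℝ} :
    p ∈ tri (i, j, false) ↔ (i : ℝ) ≤ p.1 ∧ (j : ℝ) ≤ p.2 ∧ p.1 + p.2 ≤ i + j + 1 := by
  simp [tri]

theorem mem_tri_true {i j : ℤ} {p : ℝ × ℝ} :
    p ∈ tri (i, j, true) ↔ p.1 ≤ i + 1 ∧ p.2 ≤ j + 1 ∧ (i : ℝ) + j + 1 ≤ p.1 + p.2 := by
  simp [tri]

/-- translation of a cell -/
def sh (u v : ℤ) (c : Cell) : Cell := (c.1 + u, c.2.1 + v, c.2.2)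

/-- the linear part of the three motions used -/
def mo (o : Fin 3) (p : ℝ × ℝ) : ℝ × ℝ :=
  match o with
  | 0 => p
  | 1 => (-p.2, p.1 + p.2)
  | 2 => (p.1 + p.2, -p.1)

/-- the same motions on cells -/
def moC (o : Fin 3) (c : Cell) : Cell :=
  match o with
  | 0 => c
  | 1 => if c.2.2 then (-c.2.1 - 1, c.1 + c.2.1 + 1, false) else (-c.2.1 - 1, c.1 + c.2.1, true)
  | 2 => if c.2.2 then (c.1 + c.2.1 + 1, -c.1 - 1, false) else (c.1 + c.2.1, -c.1 - 1, true)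

theorem mem_mo (o : Fin 3) (u v : ℤ) (c : Cell) (p : ℝ × ℝ) :
    mo o p + ((u : ℝ), (v : ℝ)) ∈ tri (sh u v (moC o c)) ↔ p ∈ tri c := by
  obtain ⟨i, j, k⟩ := c
  obtain ⟨x, y⟩ := p
  fin_cases o <;> cases k <;>
    simp only [sh, moC, mo, Bool.false_eq_true, if_false, if_true, mem_tri_false, mem_tri_true,
      Prod.mk_add_mk] <;> push_cast <;> constructor <;> rintro ⟨h1, h2, h3⟩ <;>
    refine ⟨?_, ?_, ?_⟩ <;> linarith

/-- the eight cells of the prototile -/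
def base : List Cell :=
  [(0, 0, false), (0, 0, true), (0, 1, false), (0, 1, true),
   (0, -1, true), (1, -1, false), (1, -2, true), (2, -2, false)]

/-- the cells of the copy given by a motion -/
def cellsOf (o : Fin 3) (u v : ℤ) : List Cell := base.map (fun c => sh u v (moC o c))

/-- the copy given by a motion, as a set in lattice coordinates -/
def tile (o : Fin 3) (u v : ℤ) : Set (ℝ × ℝ) := {p | ∃ c ∈ cellsOf o u v, p ∈ tri c}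

/-- the twelve tiles of a fundamental domain -/
def data : Fin 12 → Fin 3 × ℤ × ℤ :=
  ![(1, 2, -3), (0, 0, 0), (0, 5, 2), (2, 6, 4), (0, 1, 0), (0, 2, 0), (0, 3, 0), (1, 6, 4),
    (1, 6, 5), (0, 4, 2), (2, -1, 3), (1, 2, 2)]

/-- the tile with index `(τ, m, n)` -/
def cellsIx (τ : Fin 12) (m n : ℤ) : List Cell :=
  cellsOf (data τ).1 ((data τ).2.1 + 8 * m) ((data τ).2.2 + 6 * n)

def tileIx (τ : Fin 12) (m n : ℤ) : Set (ℝ × ℝ) :=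
  tile (data τ).1 ((data τ).2.1 + 8 * m) ((data τ).2.2 + 6 * n)

theorem mem_tileIx {τ : Fin 12} {m n : ℤ} {p : ℝ × ℝ} :
    p ∈ tileIx τ m n ↔ ∃ c ∈ cellsIx τ m n, p ∈ tri c := Iff.rfl

theorem mem_cellsIx {τ : Fin 12} {m n : ℤ} {c : Cell} :
    c ∈ cellsIx τ m n ↔ ∃ b ∈ cellsIx τ 0 0, c = sh (8 * m) (6 * n) b := by
  simp only [cellsIx, cellsOf, List.mem_map]
  constructor
  · rintro ⟨b, hb, rfl⟩
    refine ⟨_, ⟨b, hb, rfl⟩, ?_⟩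
    simp only [sh]
    refine Prod.ext ?_ (Prod.ext ?_ rfl) <;> simp only <;> ring
  · rintro ⟨_, ⟨b, hb, rfl⟩, rfl⟩
    refine ⟨b, hb, ?_⟩
    simp only [sh]
    refine Prod.ext ?_ (Prod.ext ?_ rfl) <;> simp only <;> ring

theorem fact_cover : ∀ i : Fin 8, ∀ j : Fin 6, ∀ k : Bool, ∃ τ : Fin 12,
    ∃ c ∈ cellsIx τ 0 0, c.1 % 8 = (i.val : ℤ) ∧ c.2.1 % 6 = (j.val : ℤ) ∧ c.2.2 = k := by
  decide +kernel

theorem fact_inj : ∀ τ τ' : Fin 12, ∀ c ∈ cellsIx τ 0 0, ∀ c' ∈ cellsIx τ' 0 0,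
    c.1 % 8 = c'.1 % 8 → c.2.1 % 6 = c'.2.1 % 6 → c.2.2 = c'.2.2 → τ = τ' ∧ c = c' := by
  decide +kernel

/-- every cell belongs to some tile -/
theorem cell_cover (c : Cell) : ∃ τ m n, c ∈ cellsIx τ m n := by
  obtain ⟨i, j, k⟩ := c
  have hi : 0 ≤ i % 8 ∧ i % 8 < 8 := ⟨Int.emod_nonneg _ (by norm_num), Int.emod_lt_of_pos _ (by norm_num)⟩
  have hj : 0 ≤ j % 6 ∧ j % 6 < 6 := ⟨Int.emod_nonneg _ (by norm_num), Int.emod_lt_of_pos _ (by norm_num)⟩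
  obtain ⟨τ, b, hb, h1, h2, h3⟩ := fact_cover ⟨(i % 8).toNat, by omega⟩ ⟨(j % 6).toNat, by omega⟩ k
  simp only at h1 h2
  rw [Int.toNat_of_nonneg hi.1] at h1
  rw [Int.toNat_of_nonneg hj.1] at h2
  refine ⟨τ, (i - b.1) / 8, (j - b.2.1) / 6, mem_cellsIx.2 ⟨b, hb, ?_⟩⟩
  simp only [sh]
  refine Prod.ext ?_ (Prod.ext ?_ h3.symm)
  · simp only; omega
  · simp only; omega

/-- the tile of a cell is unique -/
theorem cell_unique {c : Cell} {τ τ' : Fin 12} {m n m' n' : ℤ} (h : c ∈ cellsIx τ m n)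
    (h' : c ∈ cellsIx τ' m' n') : τ = τ' ∧ m = m' ∧ n = n' := by
  obtain ⟨b, hb, rfl⟩ := mem_cellsIx.1 h
  obtain ⟨b', hb', e⟩ := mem_cellsIx.1 h'
  simp only [sh, Prod.mk.injEq] at e
  obtain ⟨e1, e2, e3⟩ := e
  obtain ⟨h1, h2⟩ := fact_inj τ τ' b hb b' hb' (by omega) (by omega) e3
  subst h2
  exact ⟨h1, by omega, by omega⟩

end H407R3.Chev
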