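import Pool.Agent.H407R3.Chev.Cells

set_option autoImplicit false

namespace H407R3.Chev

open Set

theorem exists_cell (p : ℝ × ℝ) : ∃ c, p ∈ tri c := by
  by_cases h : p.1 + p.2 ≤ ⌊p.1⌋ + ⌊p.2⌋ + 1
  · exact ⟨(⌊p.1⌋, ⌊p.2⌋, false), mem_tri_false.2 ⟨Int.floor_le _, Int.floor_le _, h⟩⟩
  · exact ⟨(⌊p.1⌋, ⌊p.2⌋, true), mem_tri_true.2 ⟨(Int.lt_floor_add_one _).le,
      (Int.lt_floor_add_one _).le, by linarith⟩⟩

/-- a generic point: on none of the lattice lines -/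
def Gen (p : ℝ × ℝ) : Prop :=
  (∀ n : ℤ, p.1 ≠ n) ∧ (∀ n : ℤ, p.2 ≠ n) ∧ (∀ n : ℤ, p.1 + p.2 ≠ n)

theorem gen_cell {p : ℝ × ℝ} (hp : Gen p) {c : Cell} (h : p ∈ tri c) :
    c.1 = ⌊p.1⌋ ∧ c.2.1 = ⌊p.2⌋ ∧ (c.2.2 = true ↔ (⌊p.1⌋ : ℝ) + ⌊p.2⌋ + 1 < p.1 + p.2) := by
  obtain ⟨i, j, k⟩ := c
  obtain ⟨x, y⟩ := p
  obtain ⟨g1, g2, g3⟩ := hp
  simp only at g1 g2 g3
  have hxy := g3 (i + j + 1)
  push_cast at hxy
  cases k
  · rw [mem_tri_false] at h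
    obtain ⟨h1, h2, h3⟩ := h
    simp only at h1 h2 h3
    have e1 : i = ⌊x⌋ := by
      symm; rw [Int.floor_eq_iff]; refine ⟨h1, lt_of_le_of_ne (by linarith) ?_⟩
      have := g1 (i + 1); push_cast at this; exact this
    have e2 : j = ⌊y⌋ := by
      symm; rw [Int.floor_eq_iff]; refine ⟨h2, lt_of_le_of_ne (by linarith) ?_⟩
      have := g2 (j + 1); push_cast at this; exact this
    refine ⟨e1, e2, ?_⟩
    simp only [Bool.false_eq_true, false_iff, not_lt]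
    rw [← e1, ← e2]; exact h3
  · rw [mem_tri_true] at h
    obtain ⟨h1, h2, h3⟩ := h
    simp only at h1 h2 h3
    have e1 : i = ⌊x⌋ := by
      symm; rw [Int.floor_eq_iff]; refine ⟨by linarith, lt_of_le_of_ne h1 ?_⟩
      have := g1 (i + 1); push_cast at this; exact this
    have e2 : j = ⌊y⌋ := by
      symm; rw [Int.floor_eq_iff]; refine ⟨by linarith, lt_of_le_of_ne h2 ?_⟩
      have := g2 (j + 1); push_cast at this; exact this
    refine ⟨e1, e2, ?_⟩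
    simp only [true_iff]
    rw [← e1, ← e2]; exact lt_of_le_of_ne h3 (fun h => hxy h.symm)

theorem gen_unique {p : ℝ × ℝ} (hp : Gen p) {c c' : Cell} (h : p ∈ tri c) (h' : p ∈ tri c') :
    c = c' := by
  obtain ⟨a1, a2, a3⟩ := gen_cell hp h
  obtain ⟨b1, b2, b3⟩ := gen_cell hp h'
  refine Prod.ext (a1.trans b1.symm) (Prod.ext (a2.trans b2.symm) ?_)
  have := a3.trans b3.symm
  revert this
  cases c.2.2 <;> cases c'.2.2 <;> simp

theorem exists_gen {W : Set (ℝ × ℝ)} (hW : IsOpen W) (hne : W.Nonempty) : ∃ p ∈ W, Gen p := by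
  obtain ⟨p, hp⟩ := hne
  obtain ⟨U, V, hU, hV, hpU, hpV, hUV⟩ := isOpen_prod_iff.1 hW p.1 p.2 hp
  have hcx : (Set.range (fun n : ℤ => (n : ℝ))).Countable := Set.countable_range _
  obtain ⟨x, hxU, hx⟩ := (hcx.dense_compl ℝ).inter_open_nonempty U hU ⟨_, hpU⟩
  have hcy : (Set.range (fun n : ℤ => (n : ℝ)) ∪ Set.range (fun n : ℤ => (n : ℝ) - x)).Countable :=
    (Set.countable_range _).union (Set.countable_range _)
  obtain ⟨y, hyV, hy⟩ := (hcy.dense_compl ℝ).inter_open_nonempty V hV ⟨_, hpV⟩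
  refine ⟨(x, y), hUV ⟨hxU, hyV⟩, ?_, ?_, ?_⟩
  · intro n hn; exact hx ⟨n, hn.symm⟩
  · intro n hn; exact hy (Or.inl ⟨n, hn.symm⟩)
  · intro n hn; exact hy (Or.inr ⟨n, by simp only at hn ⊢; linarith⟩)

theorem tileIx_disjoint {τ τ' : Fin 12} {m n m' n' : ℤ} (hne : ¬ (τ = τ' ∧ m = m' ∧ n = n')) :
    Disjoint (interior (tileIx τ m n)) (interior (tileIx τ' m' n')) := by
  rw [Set.disjoint_iff_inter_eq_empty]
  by_contra hcon
  obtain ⟨p, hp, hg⟩ := exists_gen (isOpen_interior.inter isOpen_interior)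
    (Set.nonempty_iff_ne_empty.2 hcon)
  obtain ⟨c, hc, hpc⟩ := mem_tileIx.1 (interior_subset hp.1)
  obtain ⟨c', hc', hpc'⟩ := mem_tileIx.1 (interior_subset hp.2)
  have := gen_unique hg hpc hpc'
  subst this
  exact hne (cell_unique hc hc')

theorem tileIx_cover (p : ℝ × ℝ) : ∃ τ m n, p ∈ tileIx τ m n := by
  obtain ⟨c, hc⟩ := exists_cell p
  obtain ⟨τ, m, n, h⟩ := cell_cover c
  exact ⟨τ, m, n, mem_tileIx.2 ⟨c, h, hc⟩⟩

theorem mem_tile_mo (o : Fin 3) (u v : ℤ) (p : ℝ × ℝ) :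
    mo o p + ((u : ℝ), (v : ℝ)) ∈ tile o u v ↔ p ∈ tile 0 0 0 := by
  simp only [tile, cellsOf, List.mem_map, mem_ofPred_eq]
  constructor
  · rintro ⟨_, ⟨b, hb, rfl⟩, h⟩
    refine ⟨_, ⟨b, hb, rfl⟩, ?_⟩
    have h2 := (mem_mo 0 0 0 b p).2 ((mem_mo o u v b p).1 h)
    have e : mo 0 p + (((0 : ℤ) : ℝ), ((0 : ℤ) : ℝ)) = p := by
      simp [mo]
    rwa [e] at h2
  · rintro ⟨_, ⟨b, hb, rfl⟩, h⟩
    refine ⟨_, ⟨b, hb, rfl⟩, ?_⟩
    apply (mem_mo o u v b p).2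
    apply (mem_mo 0 0 0 b p).1
    have e : mo 0 p + (((0 : ℤ) : ℝ), ((0 : ℤ) : ℝ)) = p := by
      simp [mo]
    rwa [e]

theorem mem_tile0 (p : ℝ × ℝ) :
    p ∈ tile 0 0 0 ↔ |p.2| ≤ 2 ∧ 0 ≤ p.1 + min p.2 0 ∧ p.1 + min p.2 0 ≤ 1 := by
  obtain ⟨x, y⟩ := p
  have hex : (x, y) ∈ tile 0 0 0 ↔ ∃ c ∈ base, (x, y) ∈ tri c := by
    have : cellsOf 0 0 0 = base := by decide
    simp only [tile, this, mem_ofPred_eq]
  rw [hex]
  simp only [base, List.mem_cons, List.not_mem_nil, or_false, exists_eq_or_imp, exists_eq_left,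
    mem_tri_false, mem_tri_true]
  push_cast
  rw [abs_le]
  rcases le_total y 0 with hy | hy
  · rw [min_eq_left hy]
    constructor
    · rintro (⟨h1, h2, h3⟩ | ⟨h1, h2, h3⟩ | ⟨h1, h2, h3⟩ | ⟨h1, h2, h3⟩ | ⟨h1, h2, h3⟩ |
        ⟨h1, h2, h3⟩ | ⟨h1, h2, h3⟩ | ⟨h1, h2, h3⟩) <;>
      refine ⟨⟨?_, ?_⟩, ?_, ?_⟩ <;> linarith
    · rintro ⟨⟨h1, h2⟩, h3, h4⟩
      rcases le_total (-1) y with hy1 | hy1
      · rcases le_total x 1 with hx | hx
        · right; right; right; right; left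
          refine ⟨?_, ?_, ?_⟩ <;> linarith
        · right; right; right; right; right; left
          refine ⟨?_, ?_, ?_⟩ <;> linarith
      · rcases le_total x 2 with hx | hx
        · right; right; right; right; right; right; left
          refine ⟨?_, ?_, ?_⟩ <;> linarith
        · right; right; right; right; right; right; right
          refine ⟨?_, ?_, ?_⟩ <;> linarith
  · rw [min_eq_right hy]
    constructor
    · rintro (⟨h1, h2, h3⟩ | ⟨h1, h2, h3⟩ | ⟨h1, h2, h3⟩ | ⟨h1, h2, h3⟩ | ⟨h1, h2, h3⟩ |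
        ⟨h1, h2, h3⟩ | ⟨h1, h2, h3⟩ | ⟨h1, h2, h3⟩) <;>
      refine ⟨⟨?_, ?_⟩, ?_, ?_⟩ <;> linarith
    · rintro ⟨⟨h1, h2⟩, h3, h4⟩
      rcases le_total y 1 with hy1 | hy1
      · rcases le_total (x + y) 1 with hx | hx
        · left
          refine ⟨?_, ?_, ?_⟩ <;> linarith
        · right; left
          refine ⟨?_, ?_, ?_⟩ <;> linarith
      · rcases le_total (x + y) 2 with hx | hx
        · right; right; left
          refine ⟨?_, ?_, ?_⟩ <;> linarith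
        · right; right; right; left
          refine ⟨?_, ?_, ?_⟩ <;> linarith

end H407R3.Chev
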