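import Pool.Agent.H407R3.Chev.Plane

set_option autoImplicit false

namespace H407R3.Chev

open Set
open scoped unitInterval

/-- the tiling -/
noncomputable def TT : Set (Set E) := {U | ∃ τ m n, U = Phi '' tileIx τ m n}

/-- the tile whose neighbourhood has a hole -/
noncomputable def T0 : Set E := Phi '' tile 0 2 0

/-- its neighbourhood -/
noncomputable def NT : Set E := ⋃₀ {U ∈ TT | (U ∩ T0).Nonempty}

theorem tileIx_tile (τ : Fin 12) : tileIx τ 0 0 = tile (data τ).1 (data τ).2.1 (data τ).2.2 := by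
  simp [tileIx]

theorem T0_mem : T0 ∈ TT := ⟨5, 0, 0, by rw [tileIx_tile]; rfl⟩

theorem mem_A (X Y : ℝ) : (X, Y) ∈ tile 2 (-1) 3 ↔
    |X + Y - 2| ≤ 2 ∧ 0 ≤ (3 - Y) + min (X + Y - 2) 0 ∧ (3 - Y) + min (X + Y - 2) 0 ≤ 1 := by
  have h := mem_tile_mo 2 (-1) 3 (3 - Y, X + Y - 2)
  rw [mem_tile0] at h
  have e : mo 2 (3 - Y, X + Y - 2) + (((-1 : ℤ) : ℝ), ((3 : ℤ) : ℝ)) = (X, Y) := by
    simp [mo]; ring
  rw [e] at h
  exact h

theorem mem_B (X Y : ℝ) : (X, Y) ∈ tile 0 1 0 ↔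
    |Y| ≤ 2 ∧ 0 ≤ (X - 1) + min Y 0 ∧ (X - 1) + min Y 0 ≤ 1 := by
  have h := mem_tile_mo 0 1 0 (X - 1, Y)
  rw [mem_tile0] at h
  have e : mo 0 (X - 1, Y) + (((1 : ℤ) : ℝ), ((0 : ℤ) : ℝ)) = (X, Y) := by
    simp [mo]
  rw [e] at h
  exact h

theorem mem_T (X Y : ℝ) : (X, Y) ∈ tile 0 2 0 ↔
    |Y| ≤ 2 ∧ 0 ≤ (X - 2) + min Y 0 ∧ (X - 2) + min Y 0 ≤ 1 := by
  have h := mem_tile_mo 0 2 0 (X - 2, Y)
  rw [mem_tile0] at h
  have e : mo 0 (X - 2, Y) + (((2 : ℤ) : ℝ), ((0 : ℤ) : ℝ)) = (X, Y) := by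
    simp [mo]
  rw [e] at h
  exact h

theorem mem_C (X Y : ℝ) : (X, Y) ∈ tile 1 2 (-3) ↔
    |2 - X| ≤ 2 ∧ 0 ≤ (X + Y + 1) + min (2 - X) 0 ∧ (X + Y + 1) + min (2 - X) 0 ≤ 1 := by
  have h := mem_tile_mo 1 2 (-3) (X + Y + 1, 2 - X)
  rw [mem_tile0] at h
  have e : mo 1 (X + Y + 1, 2 - X) + (((2 : ℤ) : ℝ), ((-3 : ℤ) : ℝ)) = (X, Y) := by
    simp [mo]; ring
  rw [e] at h
  exact h

theorem A_sub : Phi '' tile 2 (-1) 3 ⊆ NT := by
  intro q hq
  refine ⟨_, ⟨⟨10, 0, 0, by rw [tileIx_tile]; rfl⟩, ?_⟩, hq⟩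
  refine ⟨Phi (2, 2), ⟨_, ?_, rfl⟩, ⟨_, ?_, rfl⟩⟩
  · rw [mem_A]; norm_num
  · rw [mem_T]; norm_num

theorem B_sub : Phi '' tile 0 1 0 ⊆ NT := by
  intro q hq
  refine ⟨_, ⟨⟨4, 0, 0, by rw [tileIx_tile]; rfl⟩, ?_⟩, hq⟩
  refine ⟨Phi (2, 0), ⟨_, ?_, rfl⟩, ⟨_, ?_, rfl⟩⟩
  · rw [mem_B]; norm_num
  · rw [mem_T]; norm_num

theorem C_sub : Phi '' tile 1 2 (-3) ⊆ NT := by
  intro q hq
  refine ⟨_, ⟨⟨0, 0, 0, by rw [tileIx_tile]; rfl⟩, ?_⟩, hq⟩
  refine ⟨Phi (4, -2), ⟨_, ?_, rfl⟩, ⟨_, ?_, rfl⟩⟩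
  · rw [mem_C]; norm_num
  · rw [mem_T]; norm_num

/-- the boundary of the hole lies in the neighbourhood -/
theorem boundary_sub {x y : ℝ} (h : max (2 * |x + min y 0|) (|y| / 2) = 1) :
    Phi (x + 1 / 2, y) ∈ NT := by
  have h1 : 2 * |x + min y 0| ≤ 1 := (le_max_left _ _).trans h.le
  have h2 : |y| / 2 ≤ 1 := (le_max_right _ _).trans h.le
  have h1' : |x + min y 0| ≤ 1 / 2 := by linarith
  have h2' : |y| ≤ 2 := by linarith
  have h1a := abs_le.1 h1'
  have h2a := abs_le.1 h2'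
  rcases max_choice (2 * |x + min y 0|) (|y| / 2) with hm | hm
  · rw [hm] at h
    have h3 : |x + min y 0| = 1 / 2 := by linarith
    rcases eq_or_eq_neg_of_abs_eq h3 with h4 | h4
    · apply B_sub
      refine ⟨_, ?_, rfl⟩
      rw [mem_B]
      refine ⟨h2', ?_, ?_⟩ <;> linarith
    · rcases le_total y 0 with hy | hy
      · rw [min_eq_left hy] at h4
        apply C_sub
        refine ⟨_, ?_, rfl⟩
        rw [mem_C]
        have h5 : (0:ℝ) ≤ 2 - (x + 1 / 2) := by linarith [h2a.1]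
        rw [min_eq_right h5, abs_of_nonneg h5]
        refine ⟨?_, ?_, ?_⟩ <;> linarith
      · rw [min_eq_right hy] at h4
        apply A_sub
        refine ⟨_, ?_, rfl⟩
        rw [mem_A]
        have h5 : x + 1 / 2 + y - 2 ≤ 0 := by linarith [h2a.2]
        rw [min_eq_left h5, abs_of_nonpos h5]
        refine ⟨?_, ?_, ?_⟩ <;> linarith
  · rw [hm] at h
    have h3 : |y| = 2 := by linarith
    rcases eq_or_eq_neg_of_abs_eq h3 with h4 | h4
    · rw [min_eq_right (by linarith)] at h1a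
      apply A_sub
      refine ⟨_, ?_, rfl⟩
      rw [mem_A]
      have h5 : 0 ≤ x + 1 / 2 + y - 2 := by linarith [h1a.1]
      rw [min_eq_right h5, abs_of_nonneg h5]
      refine ⟨?_, ?_, ?_⟩ <;> linarith [h1a.2]
    · rw [min_eq_left (by linarith)] at h1a
      apply C_sub
      refine ⟨_, ?_, rfl⟩
      rw [mem_C]
      have h5 : 2 - (x + 1 / 2) ≤ 0 := by linarith [h1a.1]
      rw [min_eq_left h5, abs_of_nonpos h5]
      refine ⟨?_, ?_, ?_⟩ <;> linarith [h1a.2]

/-- the centre of the hole is not in the neighbourhood -/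
theorem centre_not_mem : Phi (1 / 2, 0) ∉ NT := by
  rintro ⟨U, ⟨⟨τ, m, n, rfl⟩, hU⟩, hd⟩
  obtain ⟨p, hp, hpe⟩ := hd
  have : p = (1 / 2, 0) := Phi.injective hpe
  subst this
  obtain ⟨c, hc, hpc⟩ := mem_tileIx.1 hp
  have hc2 : c ∈ cellsIx 1 0 0 := by
    obtain ⟨i, j, k⟩ := c
    cases k
    · rw [mem_tri_false] at hpc
      obtain ⟨h1, h2, h3⟩ := hpc
      simp only at h1 h2 h3
      have hi : i < 1 := by exact_mod_cast (show (i : ℝ) < 1 by linarith)
      have hj : j < 1 := by exact_mod_cast (show (j : ℝ) < 1 by linarith)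
      have hij : -1 < i + j := by exact_mod_cast (show (-1 : ℝ) < i + j by linarith)
      obtain rfl : i = 0 := by omega
      obtain rfl : j = 0 := by omega
      decide
    · rw [mem_tri_true] at hpc
      obtain ⟨h1, h2, h3⟩ := hpc
      simp only at h1 h2 h3
      have hi : -1 < i := by exact_mod_cast (show (-1 : ℝ) < i by linarith)
      have hj : -2 < j := by exact_mod_cast (show (-2 : ℝ) < j by linarith)
      have hij : i + j < 0 := by exact_mod_cast (show (i : ℝ) + j < 0 by linarith)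
      obtain rfl : i = 0 := by omega
      obtain rfl : j = -1 := by omega
      decide
  obtain ⟨rfl, rfl, rfl⟩ := cell_unique hc hc2
  rw [tileIx_tile] at hU
  obtain ⟨q, ⟨a, ha, rfl⟩, ⟨b, hb, hab⟩⟩ := hU
  have : b = a := Phi.injective hab
  subst this
  have ha' : b ∈ tile 0 0 0 := ha
  rw [mem_tile0] at ha'
  obtain ⟨X, Y⟩ := b
  rw [mem_T] at hb
  simp only at ha'
  linarith [ha'.2.2, hb.2.1]

/-- the radial function -/
noncomputable def ff (θ : ℝ) : ℝ := max (2 * |Real.cos θ + min (Real.sin θ) 0|) (|Real.sin θ| / 2)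

theorem ff_cont : Continuous ff := by unfold ff; fun_prop

theorem ff_pos (θ : ℝ) : 0 < ff θ := by
  unfold ff
  rw [lt_max_iff]
  by_cases h : Real.sin θ = 0
  · left
    rw [h, min_self, add_zero]
    have : Real.cos θ ≠ 0 := by
      intro h2
      have := Real.sin_sq_add_cos_sq θ
      rw [h, h2] at this; norm_num at this
    positivity
  · right
    positivity

theorem loop_mem (θ : ℝ) : Phi (Real.cos θ / ff θ + 1 / 2, Real.sin θ / ff θ) ∈ NT := by
  apply boundary_sub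
  have hp := ff_pos θ
  have e1 : min (Real.sin θ / ff θ) 0 = min (Real.sin θ) 0 / ff θ := by
    rw [← min_div_div_right hp.le, zero_div]
  rw [e1, ← add_div, abs_div, abs_div, abs_of_pos hp]
  have : max (2 * (|Real.cos θ + min (Real.sin θ) 0| / ff θ)) (|Real.sin θ| / ff θ / 2)
      = max (2 * |Real.cos θ + min (Real.sin θ) 0|) (|Real.sin θ| / 2) / ff θ := by
    rw [← max_div_div_right hp.le]
    congr 1
    · ring
    · ring
  rw [this]
  exact div_self hp.ne'

/-- the complex coordinate centred at the hole -/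
noncomputable def FF (q : E) : ℂ :=
  (((Phi.symm q).1 - 1 / 2 : ℝ) : ℂ) + (((Phi.symm q).2 : ℝ) : ℂ) * Complex.I

theorem FF_cont : Continuous FF := by
  unfold FF
  have h := Phi.symm.continuous
  fun_prop

theorem FF_ne {q : E} (hq : q ∈ NT) : FF q ≠ 0 := by
  intro h
  obtain ⟨p, rfl⟩ := Phi.surjective q
  unfold FF at h
  rw [Phi.symm_apply_apply] at h
  have h1 := congrArg Complex.re h
  have h2 := congrArg Complex.im h
  simp at h1 h2
  have : p = (1 / 2, 0) := Prod.ext (by simp only; linarith) h2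
  subst this
  exact centre_not_mem hq

theorem FF_loop (θ : ℝ) : FF (Phi (Real.cos θ / ff θ + 1 / 2, Real.sin θ / ff θ)) =
    Complex.exp ((-Real.log (ff θ) : ℝ) + (θ : ℂ) * Complex.I) := by
  unfold FF
  rw [Phi.symm_apply_apply, Complex.exp_add, Complex.exp_mul_I]
  rw [← Complex.ofReal_exp, Real.exp_neg, Real.exp_log (ff_pos θ)]
  simp only [add_sub_cancel_right]
  push_cast
  field_simp

theorem not_sc : ¬ SimplyConnectedSpace NT := by
  intro hsc
  set gam : ℝ → NT := fun t => ⟨_, loop_mem (2 * Real.pi * t)⟩ with hgam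
  have hgc : Continuous gam := by
    apply Continuous.subtype_mk
    apply Phi.continuous.comp
    have h1 : Continuous fun t : ℝ => ff (2 * Real.pi * t) := ff_cont.comp (by fun_prop)
    have h2 : ∀ t : ℝ, ff (2 * Real.pi * t) ≠ 0 := fun t => (ff_pos _).ne'
    fun_prop (disch := assumption)
  have hclosed : gam 1 = gam 0 := by
    simp only [hgam]
    congr 2
    simp [ff]
  let γ : Path (gam 0) (gam 0) :=
    { toFun := fun t => gam t
      continuous_toFun := hgc.comp continuous_subtype_val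
      source' := by simp
      target' := by simpa using hclosed }
  have hhom : Path.Homotopic γ (Path.refl _) := SimplyConnectedSpace.paths_homotopic _ _
  let r : C(NT, {z : ℂ // z ≠ 0}) := ⟨fun w => ⟨FF w, FF_ne w.2⟩, by
    apply Continuous.subtype_mk
    exact FF_cont.comp continuous_subtype_val⟩
  let L : ℝ → ℂ := fun t => (-Real.log (ff (2 * Real.pi * t)) : ℝ) +
    ((2 * Real.pi * t : ℝ) : ℂ) * Complex.I
  have hL : Continuous L := by
    have h1 : Continuous fun t : ℝ => ff (2 * Real.pi * t) := ff_cont.comp (by fun_prop)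
    have h2 : Continuous fun t : ℝ => Real.log (ff (2 * Real.pi * t)) :=
      h1.log (fun t => (ff_pos _).ne')
    show Continuous fun t => (-Real.log (ff (2 * Real.pi * t)) : ℝ) +
      ((2 * Real.pi * t : ℝ) : ℂ) * Complex.I
    fun_prop
  have hlift : ∀ t : ℝ, r (gam t) = ⟨Complex.exp (L t), Complex.exp_ne_zero _⟩ := by
    intro t
    apply Subtype.ext
    show FF _ = _
    rw [FF_loop]
  obtain ⟨H⟩ := hhom
  have cov := Complex.isCoveringMap_exp
  set γ₀ : C(I, {z : ℂ // z ≠ 0}) := r.comp γ.toContinuousMap with hγ₀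
  set γ₁ : C(I, {z : ℂ // z ≠ 0}) := r.comp (Path.refl (gam 0)).toContinuousMap with hγ₁
  have hrel : γ₀.HomotopicRel γ₁ {0, 1} := ⟨H.compContinuousMap r⟩
  have h₀ : γ₀ 0 = (fun z : ℂ ↦ (⟨_, z.exp_ne_zero⟩ : {z : ℂ // z ≠ 0})) (L 0) := by
    have := hlift 0
    simpa [hγ₀, γ] using this
  have h₁ : γ₁ 0 = (fun z : ℂ ↦ (⟨_, z.exp_ne_zero⟩ : {z : ℂ // z ≠ 0})) (L 0) := by
    have := hlift 0
    simpa [hγ₁] using this
  have key := cov.liftPath_apply_one_eq_of_homotopicRel hrel (L 0) h₀ h₁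
  have e0 : (fun t : I => L t) = cov.liftPath γ₀ (L 0) h₀ := by
    rw [cov.eq_liftPath_iff]
    refine ⟨hL.comp continuous_subtype_val, ?_, by simp⟩
    funext t
    have := hlift t
    exact this.symm
  have e1 : (fun _ : I => L 0) = cov.liftPath γ₁ (L 0) h₁ := by
    rw [cov.eq_liftPath_iff]
    refine ⟨continuous_const, ?_, rfl⟩
    funext t
    have := hlift 0
    exact this.symm
  rw [← e0, ← e1] at key
  have key2 : L 1 = L 0 := by simpa using key
  have key3 := congrArg Complex.im key2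
  simp [L] at key3

end H407R3.Chev
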