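import Pool.Agent.H407R3.Chev.Geo

set_option autoImplicit false

namespace H407R3.Chev

open Set

/-- the Euclidean plane -/
abbrev E := EuclideanSpace ℝ (Fin 2)

theorem s3pos : (0 : ℝ) < Real.sqrt 3 := Real.sqrt_pos.2 (by norm_num)
theorem s3sq : Real.sqrt 3 * Real.sqrt 3 = 3 := Real.mul_self_sqrt (by norm_num)

/-- lattice coordinates to the plane: `(x, y) ↦ x e₁ + y e₂`, `e₁ = (1,0)`, `e₂ = (1/2, √3/2)` -/
noncomputable def Phil : (ℝ × ℝ) ≃ₗ[ℝ] E where
  toFun p := !₂[p.1 + p.2 / 2, Real.sqrt 3 / 2 * p.2]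
  map_add' p q := by
    ext i; fin_cases i
    · simp; ring
    · simp; ring
  map_smul' c p := by
    ext i; fin_cases i
    · simp; ring
    · simp; ring
  invFun q := (q 0 - q 1 / Real.sqrt 3, 2 * q 1 / Real.sqrt 3)
  left_inv p := by
    have := s3pos.ne'
    ext
    · simp; field_simp; try ring
    · simp; try field_simp
  right_inv q := by
    have := s3pos.ne'
    ext i; fin_cases i
    · simp; try field_simp
      try ring
    · simp; try field_simp

/-- the same as a homeomorphism -/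
noncomputable def Phi : (ℝ × ℝ) ≃L[ℝ] E := Phil.toContinuousLinearEquiv

theorem Phi_apply (p : ℝ × ℝ) : Phi p = !₂[p.1 + p.2 / 2, Real.sqrt 3 / 2 * p.2] := rfl

theorem dist_Phi (p q : ℝ × ℝ) : dist (Phi p) (Phi q) =
    Real.sqrt ((p.1 - q.1) ^ 2 + (p.1 - q.1) * (p.2 - q.2) + (p.2 - q.2) ^ 2) := by
  rw [EuclideanSpace.dist_eq]
  congr 1
  rw [Fin.sum_univ_two, Phi_apply, Phi_apply]
  simp only [Real.dist_eq, sq_abs]
  simp only [Matrix.cons_val_zero, Matrix.cons_val_one]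
  have := s3sq
  linear_combination ((p.2 - q.2) ^ 2 / 4) * this

/-- inverse orientation -/
def oinv : Fin 3 → Fin 3 := ![0, 2, 1]

/-- a motion in lattice coordinates -/
noncomputable def motE (o : Fin 3) (w : ℝ × ℝ) : (ℝ × ℝ) ≃ (ℝ × ℝ) where
  toFun p := mo o p + w
  invFun p := mo (oinv o) (p - w)
  left_inv p := by
    fin_cases o <;> simp [mo, oinv]
  right_inv p := by
    obtain ⟨x, y⟩ := p
    obtain ⟨a, b⟩ := w
    fin_cases o
    · simp [mo, oinv]
    · simp [mo, oinv]; ring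
    · simp [mo, oinv]; ring

/-- a motion of the plane -/
noncomputable def mot (o : Fin 3) (w : ℝ × ℝ) : E ≃ᵢ E where
  toEquiv := Phi.toEquiv.symm.trans ((motE o w).trans Phi.toEquiv)
  isometry_toFun := by
    apply Isometry.of_dist_eq
    intro a b
    obtain ⟨p, rfl⟩ := Phi.surjective a
    obtain ⟨q, rfl⟩ := Phi.surjective b
    have h1 : ∀ r : ℝ × ℝ, (Phi.toEquiv.symm.trans ((motE o w).trans Phi.toEquiv)) (Phi r)
        = Phi (mo o r + w) := by
      intro r
      show Phi (mo o (Phi.symm (Phi r)) + w) = _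
      rw [Phi.symm_apply_apply]
    show dist ((Phi.toEquiv.symm.trans ((motE o w).trans Phi.toEquiv)) (Phi p))
      ((Phi.toEquiv.symm.trans ((motE o w).trans Phi.toEquiv)) (Phi q)) = _
    rw [h1, h1, dist_Phi, dist_Phi]
    congr 1
    fin_cases o <;> simp only [mo] <;> simp <;> ring

theorem mot_Phi (o : Fin 3) (w p : ℝ × ℝ) : mot o w (Phi p) = Phi (mo o p + w) := by
  show Phi (mo o (Phi.symm (Phi p)) + w) = _
  rw [Phi.symm_apply_apply]

/-- the prototile -/
noncomputable def proto : Set E := Phi '' tile 0 0 0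

theorem tile_eq_mot (o : Fin 3) (u v : ℤ) :
    Phi '' tile o u v = mot o ((u : ℝ), (v : ℝ)) '' proto := by
  ext q
  constructor
  · rintro ⟨p, hp, rfl⟩
    obtain ⟨r, hr⟩ := (motE o ((u : ℝ), (v : ℝ))).surjective p
    have hr' : mo o r + ((u : ℝ), (v : ℝ)) = p := hr
    refine ⟨Phi r, ⟨r, ?_, rfl⟩, ?_⟩
    · rw [← mem_tile_mo o u v, hr']; exact hp
    · rw [mot_Phi, hr']
  · rintro ⟨_, ⟨r, hr, rfl⟩, rfl⟩
    rw [mot_Phi]
    exact ⟨_, (mem_tile_mo o u v r).2 hr, rfl⟩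

/-- shear homeomorphism straightening the prototile -/
noncomputable def shear : (ℝ × ℝ) ≃ₜ (ℝ × ℝ) where
  toFun p := (p.1 + min p.2 0, p.2)
  invFun p := (p.1 - min p.2 0, p.2)
  left_inv p := by simp
  right_inv p := by simp
  continuous_toFun := by fun_prop
  continuous_invFun := by fun_prop

theorem shear_tile : shear '' tile 0 0 0 = Icc 0 1 ×ˢ Icc (-2) 2 := by
  ext q
  rw [← shear.apply_symm_apply q, shear.injective.mem_set_image, mem_tile0]
  set p := shear.symm q with hp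
  show _ ↔ (0 ≤ p.1 + min p.2 0 ∧ p.1 + min p.2 0 ≤ 1) ∧ (-2 ≤ p.2 ∧ p.2 ≤ 2)
  rw [abs_le]
  tauto

theorem proto_ball : Nonempty (proto ≃ₜ Metric.closedBall (0 : E) 1) := by
  set K : Set E := Phi '' (Icc (0:ℝ) 1 ×ˢ Icc (-2:ℝ) 2) with hK
  have hconv : Convex ℝ K :=
    (((convex_Icc (0:ℝ) 1).prod (convex_Icc (-2:ℝ) 2))).linear_image Phi.toLinearMap
  have hcomp : IsCompact K := (isCompact_Icc.prod isCompact_Icc).image Phi.continuous
  have hint : (interior K).Nonempty := by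
    rw [hK]
    have : Phi '' (Icc (0:ℝ) 1 ×ˢ Icc (-2:ℝ) 2) = Phi.toHomeomorph '' (Icc (0:ℝ) 1 ×ˢ Icc (-2:ℝ) 2) := rfl
    rw [this, ← Phi.toHomeomorph.image_interior, interior_prod_eq, interior_Icc, interior_Icc]
    exact ⟨_, (1/2, 0), ⟨by constructor <;> norm_num, by constructor <;> norm_num⟩, rfl⟩
  obtain ⟨k, -, hk, -⟩ := exists_homeomorph_image_interior_closure_frontier_eq_unitBall hconv hint
    hcomp.isBounded
  rw [hcomp.isClosed.closure_eq] at hk
  let h : E ≃ₜ E := (Phi.toHomeomorph.symm.trans (shear.trans Phi.toHomeomorph)).trans k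
  have himg : h '' proto = Metric.closedBall (0 : E) 1 := by
    rw [← hk, hK, ← shear_tile]
    ext q
    constructor
    · rintro ⟨_, ⟨p, hp, rfl⟩, rfl⟩
      refine ⟨Phi (shear p), ⟨_, ⟨p, hp, rfl⟩, rfl⟩, ?_⟩
      show _ = k (Phi (shear (Phi.symm (Phi p))))
      rw [Phi.symm_apply_apply]
    · rintro ⟨_, ⟨_, ⟨p, hp, rfl⟩, rfl⟩, rfl⟩
      refine ⟨Phi p, ⟨p, hp, rfl⟩, ?_⟩
      show k (Phi (shear (Phi.symm (Phi p)))) = _
      rw [Phi.symm_apply_apply]
  exact ⟨(h.image proto).trans (Homeomorph.setCongr himg)⟩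

end H407R3.Chev
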